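import Mathlib
import Pool.Agent.Helper557.TF.All

set_option autoImplicit false

open MeasureTheory Set Filter Topology Metric
open scoped RealInnerProductSpace BigOperators ENNReal

namespace Pool.Agent.H27Z.TFA

open Pool.Agent.Helper557.TFP

/-- discrete rearrangement, with a different contraction in each coordinate -/
theorem disc_all3 (W : ℕ) (c : Fin 3 → ℤ → ℤ)
    (hc : ∀ b s, c b s ≤ c b (s + 1) ∧ c b (s + 1) ≤ c b s + 1)
    (u : (Fin 3 → ℤ) →₀ ℝ) (hu : ∀ x, 0 ≤ u x) :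
    ∃ u' : (Fin 3 → ℤ) →₀ ℝ, Dom {y | ∀ b, |y b| ≤ (W : ℤ)} (fun y b => c b (y b)) u u' := by
  obtain ⟨u1, h11, h12, h13, h14⟩ := disc_chain 0 W (c 0) (hc 0) u hu
  obtain ⟨u2, h21, h22, h23, h24⟩ := disc_chain 1 W (c 1) (hc 1) u1 h11
  obtain ⟨u3, h31, h32, h33, h34⟩ := disc_chain 2 W (c 2) (hc 2) u2 h21
  refine ⟨u3, h31, ?_, ?_, ?_⟩
  · intro F hF
    rw [h32 F hF, h22 F hF, h12 F hF]
  · intro K hK
    exact (h13 K hK).trans ((h23 K hK).trans (h33 K hK))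
  · intro K hK h y hy
    have hy' : ∀ b, |y b| ≤ (W : ℤ) := hy
    have e1 := h14 K hK h y (hy' 0)
    have e2 := h24 K hK h (Function.update y 0 (c 0 (y 0))) (by
      show |Function.update y 0 (c 0 (y 0)) 1| ≤ (W : ℤ)
      rw [Function.update_of_ne (by decide)]
      exact hy' 1)
    have e3 := h34 K hK h (Function.update (Function.update y 0 (c 0 (y 0))) 1
        (c 1 (Function.update y 0 (c 0 (y 0)) 1))) (by
      show |Function.update (Function.update y 0 (c 0 (y 0))) 1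
        (c 1 (Function.update y 0 (c 0 (y 0)) 1)) 2| ≤ (W : ℤ)
      rw [Function.update_of_ne (by decide), Function.update_of_ne (by decide)]
      exact hy' 2)
    have hfin : (Function.update (Function.update (Function.update y 0 (c 0 (y 0))) 1
        (c 1 (Function.update y 0 (c 0 (y 0)) 1))) 2
        (c 2 ((Function.update (Function.update y 0 (c 0 (y 0))) 1
        (c 1 (Function.update y 0 (c 0 (y 0)) 1))) 2))) = fun b => c b (y b) := by
      funext b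
      fin_cases b <;> simp [Function.update]
    simp only [hfin] at e3
    exact e1.trans (e2.trans e3)

theorem cs_lattice3 (η κ μ lam : ℝ) (hη : 0 < η) (hκ : 0 < κ) (hμ : 0 ≤ μ) (W : ℕ)
    (c : Fin 3 → ℤ → ℤ) (hc : ∀ b s, c b s ≤ c b (s + 1) ∧ c b (s + 1) ≤ c b s + 1)
    (u : (Fin 3 → ℤ) →₀ ℝ) (hu : ∀ x, 0 ≤ u x) :
    ∃ u' : (Fin 3 → ℤ) →₀ ℝ, (∀ x, 0 ≤ u' x) ∧
      ∀ (k : ℕ) (z : Fin k → ℝ), (∀ j, 0 ≤ z j) → ∀ (h : ℕ) (y : Fin k → Fin 3 → ℤ),
        (∀ j b, |y j b| ≤ (W : ℤ)) →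
        Gd κ μ lam (Mcube z η h y) (stepf η u)
          ≤ Gd κ μ lam (Mcube z η h (fun j b => c b (y j b))) (stepf η u') := by
  obtain ⟨u', hu', hF, hK, hN⟩ := disc_all3 W c hc u hu
  refine ⟨u', hu', ?_⟩
  intro k z hz h y hy
  have hker := ker_ok η κ hη hκ
  have hF1 : (∫ x, (max (stepf η u x - μ) 0) ^ (5/2 : ℝ)) =
      ∫ x, (max (stepf η u' x - μ) 0) ^ (5/2 : ℝ) := by
    have h0 : (fun v : ℝ => (max (v - μ) 0) ^ (5/2 : ℝ)) 0 = 0 := by
      have : max (0 - μ) 0 = 0 := max_eq_right (by linarith)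
      simp only [this]
      exact Real.zero_rpow (by norm_num)
    have h1 := (lat_F η hη u (fun v : ℝ => (max (v - μ) 0) ^ (5/2 : ℝ)) h0).2
    have h2 := (lat_F η hη u' (fun v : ℝ => (max (v - μ) 0) ^ (5/2 : ℝ)) h0).2
    have h3 := hF (fun v : ℝ => (max (v - μ) 0) ^ (5/2 : ℝ)) h0
    rw [h1, h2, h3]
  have hF2 : (∫ x, stepf η u x ^ 2) = ∫ x, stepf η u' x ^ 2 := by
    have h0 : (fun v : ℝ => v ^ 2) 0 = 0 := by norm_num
    have h1 := (lat_F η hη u (fun v : ℝ => v ^ 2) h0).2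
    have h2 := (lat_F η hη u' (fun v : ℝ => v ^ 2) h0).2
    have h3 := hF (fun v : ℝ => v ^ 2) h0
    rw [h1, h2, h3]
  have hD : (∫ x, ∫ w, stepf η u x * stepf η u w * Yk κ (x - w)) ≤
      ∫ x, ∫ w, stepf η u' x * stepf η u' w * Yk κ (x - w) := by
    rw [(lat_K η κ hη hκ u).1, (lat_K η κ hη hκ u').1]
    exact hK _ hker
  have hNu : (∫ x, ∫ w, stepf η u x * Mcube z η h y w * Yk κ (x - w)) ≤
      ∫ x, ∫ w, stepf η u' x * Mcube z η h (fun j b => c b (y j b)) w * Yk κ (x - w) := by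
    rw [TH_cs_lattice_nuc η κ hη hκ u k z h y,
      TH_cs_lattice_nuc η κ hη hκ u' k z h (fun j b => c b (y j b))]
    refine Finset.sum_le_sum fun j _ => ?_
    refine mul_le_mul_of_nonneg_left ?_ (hz j)
    refine mul_le_mul_of_nonneg_left ?_ (by positivity)
    exact hN _ hker h (y j) (hy j)
  unfold Gd
  rw [hF1, hF2]
  have hκ2 : 0 ≤ κ ^ 2 / (8 * Real.pi) := by positivity
  have h5 := mul_le_mul_of_nonneg_left hD hκ2
  nlinarith [h5, hNu]

theorem ctr_near (η : ℝ) (hη : 0 < η) (T : Fin 3 → ℝ → ℝ)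
    (hT : ∀ b s t, s ≤ t → T b s ≤ T b t ∧ T b t - T b s ≤ t - s) (x x' : E3)
    (hx : ∀ b, x' b = T b (x b)) :
    ‖ctr η (fun b => ⌊T b (((⌊x b / η⌋ : ℤ) : ℝ) * η) / η⌋) - x'‖ ≤ 2 * (2 * η) := by
  refine TH_contraction_norm _ (2 * η) (by positivity) fun b => ?_
  have e1 : (ctr η (fun b => ⌊T b (((⌊x b / η⌋ : ℤ) : ℝ) * η) / η⌋) - x') b =
      (((⌊T b (((⌊x b / η⌋ : ℤ) : ℝ) * η) / η⌋ : ℤ) : ℝ) + 1 / 2) * η - T b (x b) := by
    simp [ctr, hx b]
  rw [e1]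
  set F : ℝ := ((⌊x b / η⌋ : ℤ) : ℝ) with hF
  set G : ℝ := ((⌊T b (F * η) / η⌋ : ℤ) : ℝ) with hG
  have a1 : F ≤ x b / η := Int.floor_le _
  have a2 : x b / η < F + 1 := Int.lt_floor_add_one _
  have a3 : G ≤ T b (F * η) / η := Int.floor_le _
  have a4 : T b (F * η) / η < G + 1 := Int.lt_floor_add_one _
  rw [le_div_iff₀ hη] at a1 a3
  rw [div_lt_iff₀ hη] at a2 a4
  obtain ⟨b1, b2⟩ := hT b (F * η) (x b) a1
  rw [abs_le]
  constructor <;> nlinarith

/-- A coordinatewise monotone contraction of the nuclei does not lower the energy. -/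
theorem contraction3 {k : ℕ} (z : Fin k → ℝ) (hz : ∀ j, 0 ≤ z j) (R R' : Fin k → E3)
    (hR : Function.Injective R) (hinj : Function.Injective R') (lam : ℝ) (hlam : 0 ≤ lam)
    (T : Fin 3 → ℝ → ℝ) (hT : ∀ b s t, s ≤ t → T b s ≤ T b t ∧ T b t - T b s ≤ t - s)
    (hR' : ∀ j b, R' j b = T b (R j b)) :
    en z R lam ≤ en z R' lam := by
  classical
  refine le_of_forall_pos_le_add fun ε' hε' => ?_
  set ε := ε' / 5 with hεdef
  have hε : 0 < ε := by positivity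
  obtain ⟨r1, hr1, H1⟩ := smear_cont z hz R hR lam hlam ε hε
  obtain ⟨r2, hr2, H2⟩ := smear_cont z hz R' hinj lam hlam ε hε
  set r0 := min r1 r2 with hr0
  have hr0p : 0 < r0 := lt_min hr1 hr2
  set r := r0 / 2 with hr
  have hrp : 0 < r := by positivity
  have hrr1 : r < r1 := lt_of_lt_of_le (by rw [hr]; linarith) (min_le_left r1 r2)
  have hrr2 : r < r2 := lt_of_lt_of_le (by rw [hr]; linarith) (min_le_right r1 r2)
  obtain ⟨hMn, hM0⟩ := Mc_nice z hz r hrp R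
  obtain ⟨ρ, hρ, μ, hμ, hint, hsd⟩ := strong_dual (Mc z r R) hMn hM0 lam hlam ε hε
  obtain ⟨κ, hκ, f, hfc, hf0, ⟨r3, hfr⟩, hdl⟩ :=
    dual_lim (Mc z r R) hMn hM0 lam ρ hρ μ hμ hint ε hε
  obtain ⟨hh0, hgrid⟩ := grid κ μ lam hκ hμ f hfc hf0 r3 hfr z hz R r hrp ε hε
  set h := max hh0 2 with hh
  obtain ⟨u, hu0, hu⟩ := hgrid h (le_max_left _ _)
  set η := r / (2 * (h : ℝ) + 1) with hη
  have hηp : 0 < η := by positivity
  have hh2 : (2 : ℝ) ≤ (h : ℝ) := by exact_mod_cast (le_max_right hh0 2)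
  have hη8 : 2 * (2 * η) ≤ r0 := by
    have h5 : η * (2 * (h : ℝ) + 1) = r := by
      rw [hη]; field_simp
    have h6 : η * 5 ≤ η * (2 * (h : ℝ) + 1) := mul_le_mul_of_nonneg_left (by linarith) hηp.le
    rw [h5, hr] at h6
    linarith
  set y : Fin k → Fin 3 → ℤ := fun j b => ⌊R j b / η⌋ with hy
  have hyR : ∀ j, ‖ctr η (y j) - R j‖ ≤ 4 * η := fun j =>
    (TH_contraction_ctr1 η hηp (R j)).trans (by linarith)
  have hG1 := hu y hyR
  set W : ℕ := ∑ j, ∑ b, (y j b).natAbs with hW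
  have hyW : ∀ j b, |y j b| ≤ (W : ℤ) := by
    intro j b
    have h1 : (y j b).natAbs ≤ W := by
      calc (y j b).natAbs ≤ ∑ b, (y j b).natAbs :=
            Finset.single_le_sum (f := fun b => (y j b).natAbs) (fun _ _ => Nat.zero_le _)
              (Finset.mem_univ b)
        _ ≤ W := Finset.single_le_sum (f := fun j => ∑ b, (y j b).natAbs)
              (fun _ _ => Nat.zero_le _) (Finset.mem_univ j)
    rw [Int.abs_eq_natAbs]; exact_mod_cast h1
  set c : Fin 3 → ℤ → ℤ := fun b s => ⌊T b ((s : ℝ) * η) / η⌋ with hc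
  have hcm : ∀ b s, c b s ≤ c b (s + 1) ∧ c b (s + 1) ≤ c b s + 1 := by
    intro b s
    obtain ⟨b1, b2⟩ := hT b ((s : ℝ) * η) (((s + 1 : ℤ) : ℝ) * η) (by push_cast; nlinarith)
    constructor
    · apply Int.floor_le_floor
      exact div_le_div_of_nonneg_right b1 hηp.le
    · have : c b s + 1 = ⌊T b ((s : ℝ) * η) / η + 1⌋ := by rw [Int.floor_add_one]
      rw [this]
      apply Int.floor_le_floor
      rw [div_add_one hηp.ne']
      apply div_le_div_of_nonneg_right _ hηp.le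
      push_cast at b2 ⊢
      nlinarith
  obtain ⟨u', hu'0, hcs⟩ := cs_lattice3 η κ μ lam hηp hκ hμ W c hcm u hu0
  have hG2 := hcs k z hz h y hyW
  set Q' : Fin k → E3 := fun j => ctr η (fun b => c b (y j b)) with hQ'
  obtain ⟨hMn', hM0'⟩ := Mc_nice z hz r hrp Q'
  have hG3 : Gd κ μ lam (Mcube z η h (fun j b => c b (y j b))) (stepf η u') =
      Gd κ μ lam (Mc z r Q') (stepf η u') :=
    TH_contraction_Gd κ μ lam _ _ _ (cube_eq z r hrp h (fun j b => c b (y j b)))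
  obtain ⟨B, hB⟩ := TH_contraction_bd u' hu'0
  obtain ⟨r4, hr4⟩ := TH_contraction_supp η hηp u'
  have hG4 : Gd κ μ lam (Mc z r Q') (stepf η u') ≤ es (Mc z r Q') lam := by
    refine le_csInf ?_ ?_
    · obtain ⟨E, ρ', hρ', hm', -⟩ := en_nonempty z R lam hlam
      exact ⟨_, ρ', hρ', hm', rfl⟩
    · rintro E ⟨ρ', hρ', hm', rfl⟩
      exact ar_side κ μ lam hκ hμ (Mc z r Q') hMn' (stepf η u') (TH_contraction_meas η u')
        (fun x => hu'0 _) B (fun x => hB _) r4 hr4 ρ' hρ' hm'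
  have hH1 := H1 r hrp hrr1 R (fun j => by rw [sub_self, norm_zero]; exact hr1.le)
  have hH2 := H2 r hrp hrr2 Q' (fun j =>
    ((ctr_near η hηp T hT (R j) (R' j) (hR' j)).trans hη8).trans (min_le_right _ _))
  have k1 := (abs_le.1 hH1).1
  have k2 := (abs_le.1 hH2).2
  have : ε' = 5 * ε := by rw [hεdef]; ring
  rw [this]
  rw [hG3] at hG2
  linarith

/-! ### invariance under rotations -/

theorem int_iso (U : E3 ≃ₗᵢ[ℝ] E3) (F : E3 → ℝ) : ∫ x, F (U x) = ∫ x, F x :=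
  U.measurePreserving.integral_comp U.toHomeomorph.measurableEmbedding F

theorem adm_iso (U : E3 ≃ₗᵢ[ℝ] E3) (ρ : E3 → ℝ) (h : Adm ρ) : Adm (fun x => ρ (U x)) := by
  obtain ⟨h1, h2, h3, h4⟩ := h
  refine ⟨h1.comp U.continuous.measurable, fun x => h2 _, ?_, ?_⟩
  · exact (U.measurePreserving.integrable_comp_emb U.toHomeomorph.measurableEmbedding).2 h3
  · exact (U.measurePreserving.integrable_comp_emb U.toHomeomorph.measurableEmbedding).2 h4

theorem xi_iso {k : ℕ} (z : Fin k → ℝ) (R : Fin k → E3) (U : E3 ≃ₗᵢ[ℝ] E3) (ρ : E3 → ℝ) :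
    xi z R (fun x => ρ (U x)) = xi z (fun j => U (R j)) ρ := by
  have hn : ∀ x y : E3, ‖x - y‖ = ‖U x - U y‖ := by
    intro x y
    rw [← map_sub, U.norm_map]
  unfold xi
  have e1 : (∫ x, ρ (U x) ^ (5/3 : ℝ)) = ∫ x, ρ x ^ (5/3 : ℝ) :=
    int_iso U (fun x => ρ x ^ (5/3 : ℝ))
  have e2 : (∫ x, (∑ j, z j / ‖x - R j‖) * ρ (U x)) = ∫ x, (∑ j, z j / ‖x - U (R j)‖) * ρ x := by
    rw [← int_iso U (fun x => (∑ j, z j / ‖x - U (R j)‖) * ρ x)]
    simp only [← hn]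
  have e3 : (∫ x, ∫ y, ρ (U x) * ρ (U y) / ‖x - y‖) = ∫ x, ∫ y, ρ x * ρ y / ‖x - y‖ := by
    rw [← int_iso U (fun x => ∫ y, ρ x * ρ y / ‖x - y‖)]
    congr 1
    funext x
    rw [← int_iso U (fun y => ρ (U x) * ρ y / ‖U x - y‖)]
    simp only [← hn]
  rw [e1, e2, e3]
  simp only [← hn]

theorem en_iso {k : ℕ} (z : Fin k → ℝ) (R : Fin k → E3) (U : E3 ≃ₗᵢ[ℝ] E3) (lam : ℝ) :
    en z (fun j => U (R j)) lam = en z R lam := by
  unfold en
  congr 1
  ext E
  constructor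
  · rintro ⟨ρ, h1, h2, h3⟩
    refine ⟨fun x => ρ (U x), adm_iso U ρ h1, ?_, ?_⟩
    · rw [int_iso U ρ, h2]
    · rw [xi_iso, h3]
  · rintro ⟨ρ, h1, h2, h3⟩
    refine ⟨fun x => ρ (U.symm x), adm_iso U.symm ρ h1, ?_, ?_⟩
    · rw [int_iso U.symm ρ, h2]
    · rw [xi_iso]
      simpa using h3

/-- a rotation taking a unit vector to the third coordinate direction -/
theorem exists_iso (n : E3) (hn : ‖n‖ = 1) :
    ∃ U : E3 ≃ₗᵢ[ℝ] E3, U n = EuclideanSpace.single 2 1 := by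
  refine ⟨Submodule.reflection (ℝ ∙ (n - EuclideanSpace.single 2 1))ᗮ, ?_⟩
  apply Submodule.reflection_sub
  rw [hn]; simp

/-- A monotone contraction in one direction `n` does not lower the energy. -/
theorem contraction_dir {k : ℕ} (z : Fin k → ℝ) (hz : ∀ j, 0 ≤ z j) (R R' : Fin k → E3)
    (hR : Function.Injective R) (hinj : Function.Injective R') (lam : ℝ) (hlam : 0 ≤ lam)
    (n : E3) (hn : ‖n‖ = 1) (T : ℝ → ℝ) (hT : ∀ s t, s ≤ t → T s ≤ T t ∧ T t - T s ≤ t - s)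
    (hR' : ∀ j, R' j = R j + (T ⟪n, R j⟫ - ⟪n, R j⟫) • n) :
    en z R lam ≤ en z R' lam := by
  obtain ⟨U, hU⟩ := exists_iso n hn
  rw [← en_iso z R U, ← en_iso z R' U]
  refine contraction3 z hz _ _ (U.injective.comp hR) (U.injective.comp hinj) lam hlam
    (fun b s => if b = 2 then T s else s) ?_ ?_
  · intro b s t hst
    by_cases hb : b = 2
    · simp only [hb, if_true]; exact hT s t hst
    · simp only [hb, if_false]; exact ⟨hst, le_rfl⟩
  · intro j b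
    have e : ⟪n, R j⟫ = U (R j) 2 := by
      rw [← U.inner_map_map, hU]
      simp [EuclideanSpace.inner_single_left]
    show U (R' j) b = if b = 2 then T (U (R j) b) else U (R j) b
    rw [hR' j, map_add, map_smul, hU, e]
    by_cases hb : b = 2
    · subst hb; simp
    · simp [hb]

end Pool.Agent.H27Z.TFA
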